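import Mathlib
import Pool.Graph.R_pool_sql_team_seeded_64922ed1.X30.MaierF

/-! Sifting by a set of primes, in the case where no integer up to `Y` has more than `k` prime factors in the set. -/

set_option autoImplicit false

namespace Pool.Agent.H527.S

open Finset
open Pool.Agent.X30.MF (E F)

/-- the subsets with at most `k` elements -/
noncomputable def Sk (P : Finset ℕ) (k : ℕ) : Finset (Finset ℕ) := P.powerset.filter (fun s => s.card ≤ k)

/-- truncated inclusion-exclusion at one integer -/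
theorem ind_eq (P : Finset ℕ) (hP : ∀ p ∈ P, p.Prime) (Y k h : ℕ)
    (hk : ∀ s, s ⊆ P → s.card = k + 1 → Y < ∏ p ∈ s, p) (h1 : 1 ≤ h) (h2 : h ≤ Y) :
    (if (∀ p ∈ P, ¬ p ∣ h) then (1 : ℝ) else 0) =
      ∑ s ∈ Sk P k, (-1 : ℝ) ^ s.card * (if (∏ p ∈ s, p) ∣ h then (1 : ℝ) else 0) := by
  classical
  have hcop : ∀ s, s ⊆ P → ((∏ p ∈ s, p) ∣ h ↔ ∀ p ∈ s, p ∣ h) := by
    intro s hs
    constructor
    · intro h1 p hp
      exact (Finset.dvd_prod_of_mem _ hp).trans h1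
    · intro h1
      refine Finset.prod_primes_dvd h (fun p hp => (hP p (hs hp)).prime) h1
  set Dh := P.filter (fun p => p ∣ h) with hDh
  have hDcard : Dh.card ≤ k := by
    by_contra hcon
    obtain ⟨s, hs, hsc⟩ := Finset.exists_subset_card_eq (s := Dh) (n := k + 1) (by omega)
    have h2' := hk s (hs.trans (Finset.filter_subset _ _)) hsc
    have h3 : (∏ p ∈ s, p) ∣ h := (hcop s (hs.trans (Finset.filter_subset _ _))).2
      (fun p hp => (Finset.mem_filter.1 (hs hp)).2)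
    have h4 := Nat.le_of_dvd (by omega) h3
    omega
  have h5 : ∑ s ∈ Sk P k, (-1 : ℝ) ^ s.card * (if (∏ p ∈ s, p) ∣ h then (1 : ℝ) else 0) =
      ∑ s ∈ Dh.powerset, (-1 : ℝ) ^ s.card := by
    simp_rw [mul_ite, mul_one, mul_zero]
    rw [← Finset.sum_filter]
    apply Finset.sum_congr _ (fun _ _ => rfl)
    ext s
    unfold Sk
    simp only [Finset.mem_filter, Finset.mem_powerset]
    constructor
    · rintro ⟨⟨h6, h7⟩, h8⟩
      intro p hp
      exact Finset.mem_filter.2 ⟨h6 hp, (hcop s h6).1 h8 p hp⟩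
    · intro h6
      refine ⟨⟨h6.trans (Finset.filter_subset _ _), (Finset.card_le_card h6).trans hDcard⟩, ?_⟩
      rw [hcop s (h6.trans (Finset.filter_subset _ _))]
      intro p hp
      exact (Finset.mem_filter.1 (h6 hp)).2
  rw [h5]
  have h6 := Finset.sum_powerset_neg_one_pow_card (x := Dh)
  have h7 : ∑ s ∈ Dh.powerset, (-1 : ℝ) ^ s.card = ((∑ s ∈ Dh.powerset, (-1 : ℤ) ^ s.card : ℤ) : ℝ) := by
    push_cast; rfl
  rw [h7, h6]
  by_cases h8 : Dh = ∅
  · rw [if_pos h8, if_pos]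
    · norm_num
    · intro p hp hd
      have : p ∈ Dh := Finset.mem_filter.2 ⟨hp, hd⟩
      rw [h8] at this
      exact absurd this (Finset.notMem_empty _)
  · rw [if_neg h8, if_neg]
    · norm_num
    · intro h9
      apply h8
      rw [Finset.eq_empty_iff_forall_notMem]
      intro p hp
      rw [hDh, Finset.mem_filter] at hp
      exact h9 p hp.1 hp.2

/-- multiples of `d` in a class modulo `v`, `(d, v) = 1` -/
theorem card_mult (T v c d : ℕ) (hv : 0 < v) (hd : 0 < d) (hvd : d.Coprime v) :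
    |(((Icc 1 T).filter (fun h => h ≡ c [MOD v] ∧ d ∣ h)).card : ℝ) - (T : ℝ) / (v * d)| ≤ 1 := by
  obtain ⟨c', hc'⟩ := Nat.chineseRemainder hvd.symm c 0
  have h1 : (Icc 1 T).filter (fun h => h ≡ c [MOD v] ∧ d ∣ h) =
      (Ioc 0 T).filter (fun h => h ≡ c' [MOD (v * d)]) := by
    ext h
    simp only [mem_filter, mem_Icc, mem_Ioc]
    constructor
    · rintro ⟨⟨h2, h3⟩, h4, h5⟩
      refine ⟨⟨by omega, h3⟩, ?_⟩
      rw [← Nat.modEq_and_modEq_iff_modEq_mul hvd.symm]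
      exact ⟨h4.trans hc'.1.symm, ((Nat.modEq_zero_iff_dvd.2 h5)).trans hc'.2.symm⟩
    · rintro ⟨⟨h2, h3⟩, h4⟩
      rw [← Nat.modEq_and_modEq_iff_modEq_mul hvd.symm] at h4
      exact ⟨⟨by omega, h3⟩, h4.1.trans hc'.1, Nat.modEq_zero_iff_dvd.1 (h4.2.trans hc'.2)⟩
  rw [h1]
  have hr : 0 < v * d := Nat.mul_pos hv hd
  have h2 := Nat.Ioc_filter_modEq_card 0 T hr c'
  have h3 : (((Ioc 0 T).filter (fun h => h ≡ c' [MOD (v * d)])).card : ℤ) =
      max (⌊((T : ℚ) - c') / (v * d : ℕ)⌋ - ⌊((0 : ℕ) - c' : ℚ) / (v * d : ℕ)⌋) 0 := by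
    exact_mod_cast h2
  have hr' : (0 : ℚ) < ((v * d : ℕ) : ℚ) := by exact_mod_cast hr
  set A : ℚ := ((T : ℚ) - c') / (v * d : ℕ) with hA
  set B : ℚ := ((0 : ℕ) - c' : ℚ) / (v * d : ℕ) with hB
  have hAB : A - B = (T : ℚ) / (v * d : ℕ) := by rw [hA, hB]; push_cast; ring
  have hle : B ≤ A := by
    have : 0 ≤ (T : ℚ) / (v * d : ℕ) := by positivity
    linarith
  have hfl : ⌊B⌋ ≤ ⌊A⌋ := Int.floor_le_floor hle
  rw [max_eq_left (by linarith)] at h3
  have h4 : |(((Ioc 0 T).filter (fun h => h ≡ c' [MOD (v * d)])).card : ℚ) - (T : ℚ) / (v * d : ℕ)| ≤ 1 := by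
    have h5 : (((Ioc 0 T).filter (fun h => h ≡ c' [MOD (v * d)])).card : ℚ) = (⌊A⌋ : ℚ) - ⌊B⌋ := by
      exact_mod_cast h3
    rw [h5, ← hAB, abs_le]
    have a1 := Int.floor_le A
    have a2 := Int.lt_floor_add_one A
    have b1 := Int.floor_le B
    have b2 := Int.lt_floor_add_one B
    constructor <;> linarith
  have h6 : |((((Ioc 0 T).filter (fun h => h ≡ c' [MOD (v * d)])).card : ℚ) : ℝ) - (((T : ℚ) / (v * d : ℕ) : ℚ) : ℝ)| ≤ 1 := by
    exact_mod_cast h4
  push_cast at h6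
  exact h6

/-- the count in a class, with main term -/
theorem count_class (P : Finset ℕ) (hP : ∀ p ∈ P, p.Prime) (Y k v c : ℕ) (hv : 0 < v)
    (hPv : ∀ p ∈ P, p.Coprime v)
    (hk : ∀ s, s ⊆ P → s.card = k + 1 → Y < ∏ p ∈ s, p) (T : ℕ) (hT : T ≤ Y) :
    |(((Icc 1 T).filter (fun h => h ≡ c [MOD v] ∧ ∀ p ∈ P, ¬ p ∣ h)).card : ℝ) -
      (T : ℝ) / v * E (fun p => 1 / (p : ℝ)) P k| ≤ (Sk P k).card := by
  classical
  have h1 : (((Icc 1 T).filter (fun h => h ≡ c [MOD v] ∧ ∀ p ∈ P, ¬ p ∣ h)).card : ℝ) =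
      ∑ h ∈ (Icc 1 T).filter (fun h => h ≡ c [MOD v]), (if (∀ p ∈ P, ¬ p ∣ h) then (1 : ℝ) else 0) := by
    rw [← filter_filter, card_filter]
    push_cast
    rfl
  have h2 : (((Icc 1 T).filter (fun h => h ≡ c [MOD v] ∧ ∀ p ∈ P, ¬ p ∣ h)).card : ℝ) =
      ∑ s ∈ Sk P k, (-1 : ℝ) ^ s.card *
        (((Icc 1 T).filter (fun h => h ≡ c [MOD v] ∧ (∏ p ∈ s, p) ∣ h)).card : ℝ) := by
    rw [h1]
    have h3 : ∀ h ∈ (Icc 1 T).filter (fun h => h ≡ c [MOD v]),
        (if (∀ p ∈ P, ¬ p ∣ h) then (1 : ℝ) else 0) =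
        ∑ s ∈ Sk P k, (-1 : ℝ) ^ s.card * (if (∏ p ∈ s, p) ∣ h then (1 : ℝ) else 0) := by
      intro h hh
      rw [mem_filter, mem_Icc] at hh
      exact ind_eq P hP Y k h hk hh.1.1 (hh.1.2.trans hT)
    rw [sum_congr rfl h3, sum_comm]
    apply sum_congr rfl
    intro s _
    rw [← mul_sum]
    congr 1
    rw [← filter_filter, card_filter]
    push_cast
    rfl
  rw [h2]
  have h4 : (T : ℝ) / v * E (fun p => 1 / (p : ℝ)) P k =
      ∑ s ∈ Sk P k, (-1 : ℝ) ^ s.card * ((T : ℝ) / (v * (∏ p ∈ s, p : ℕ))) := by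
    unfold E Sk
    rw [mul_sum]
    apply sum_congr rfl
    intro s _
    push_cast
    rw [prod_div_distrib, prod_const_one]
    ring
  rw [h4, ← sum_sub_distrib]
  refine (abs_sum_le_sum_abs _ _).trans ?_
  have h5 : ∀ s ∈ Sk P k, |(-1 : ℝ) ^ s.card *
        (((Icc 1 T).filter (fun h => h ≡ c [MOD v] ∧ (∏ p ∈ s, p) ∣ h)).card : ℝ) -
        (-1 : ℝ) ^ s.card * ((T : ℝ) / (v * (∏ p ∈ s, p : ℕ)))| ≤ 1 := by
    intro s hs
    unfold Sk at hs
    rw [mem_filter, mem_powerset] at hs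
    rw [← mul_sub, abs_mul, abs_pow, abs_neg, abs_one, one_pow, one_mul]
    apply card_mult T v c _ hv
    · exact Finset.prod_pos fun p hp => (hP p (hs.1 hp)).pos
    · exact Nat.Coprime.prod_left fun p hp => hPv p (hs.1 hp)
  refine (sum_le_sum h5).trans ?_
  rw [sum_const, nsmul_eq_mul, mul_one]

/-- the count, with main term -/
theorem count_all (P : Finset ℕ) (hP : ∀ p ∈ P, p.Prime) (Y k : ℕ)
    (hk : ∀ s, s ⊆ P → s.card = k + 1 → Y < ∏ p ∈ s, p) (T : ℕ) (hT : T ≤ Y) :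
    |(((Icc 1 T).filter (fun h => ∀ p ∈ P, ¬ p ∣ h)).card : ℝ) -
      (T : ℝ) * E (fun p => 1 / (p : ℝ)) P k| ≤ (Sk P k).card := by
  have h := count_class P hP Y k 1 0 one_pos (fun p _ => Nat.coprime_one_right p) hk T hT
  have h1 : (Icc 1 T).filter (fun h => h ≡ 0 [MOD 1] ∧ ∀ p ∈ P, ¬ p ∣ h) =
      (Icc 1 T).filter (fun h => ∀ p ∈ P, ¬ p ∣ h) := by
    apply filter_congr
    intro h _
    simp [Nat.modEq_one]
  rw [h1] at h
  simpa using h

/-- number of the subsets with at most `k` elements -/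
theorem card_Sk (P : Finset ℕ) (k : ℕ) (n : ℝ) (h1 : (P.card : ℝ) ≤ n) (h2 : (k : ℝ) ≤ n) :
    ((Sk P k).card : ℝ) ≤ (k + 1) * (n ^ k / k.factorial) := by
  classical
  have hn : 0 ≤ n := le_trans (Nat.cast_nonneg _) h2
  have e1 : Sk P k = (range (k + 1)).biUnion (fun j => P.powersetCard j) := by
    ext s
    unfold Sk
    simp only [mem_filter, mem_powerset, mem_biUnion, mem_range, mem_powersetCard]
    constructor
    · rintro ⟨h3, h4⟩
      exact ⟨s.card, by omega, h3, rfl⟩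
    · rintro ⟨j, h3, h4, h5⟩
      exact ⟨h4, by omega⟩
  have e2 : ((Sk P k).card : ℝ) ≤ ∑ j ∈ range (k + 1), ((P.card.choose j : ℕ) : ℝ) := by
    rw [e1]
    have h3 := card_biUnion_le (s := range (k + 1)) (t := fun j => P.powersetCard j)
    have h4 : ((((range (k + 1)).biUnion (fun j => P.powersetCard j)).card : ℕ) : ℝ) ≤
        ((∑ j ∈ range (k + 1), (P.powersetCard j).card : ℕ) : ℝ) := by exact_mod_cast h3
    refine h4.trans (le_of_eq ?_)
    push_cast
    apply sum_congr rfl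
    intro j _
    rw [card_powersetCard]
  refine e2.trans ?_
  have h3 : ∀ j ∈ range (k + 1), ((P.card.choose j : ℕ) : ℝ) ≤ n ^ k / k.factorial := by
    intro j hj
    rw [mem_range] at hj
    have hjk : j ≤ k := by omega
    have h4 : ((P.card.choose j : ℕ) : ℝ) ≤ (P.card : ℝ) ^ j / j.factorial := Nat.choose_le_pow_div j P.card
    have h5 : (P.card : ℝ) ^ j / j.factorial ≤ n ^ j / j.factorial := by gcongr
    refine (h4.trans h5).trans ?_
    rw [div_le_div_iff₀ (by positivity) (by positivity)]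
    have h6 : (k.factorial : ℝ) ≤ j.factorial * n ^ (k - j) := by
      have h7 : k.factorial ≤ j.factorial * k ^ (k - j) := by
        obtain ⟨i, rfl⟩ := Nat.exists_eq_add_of_le hjk
        rw [Nat.add_sub_cancel_left]
        have h9 : (j + i).factorial = j.factorial * (j + 1).ascFactorial i := (Nat.factorial_mul_ascFactorial j i).symm
        rw [h9]
        apply Nat.mul_le_mul_left
        exact (Nat.ascFactorial_le_pow_add j i)
      calc (k.factorial : ℝ) ≤ ((j.factorial * k ^ (k - j) : ℕ) : ℝ) := by exact_mod_cast h7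
        _ = j.factorial * (k : ℝ) ^ (k - j) := by push_cast; ring
        _ ≤ _ := by gcongr
    calc n ^ j * (k.factorial : ℝ) ≤ n ^ j * (j.factorial * n ^ (k - j)) := by gcongr
      _ = n ^ (j + (k - j)) * j.factorial := by rw [pow_add]; ring
      _ = n ^ k * j.factorial := by rw [Nat.add_sub_cancel' hjk]
  refine (sum_le_sum h3).trans ?_
  rw [sum_const, nsmul_eq_mul, card_range]
  push_cast
  exact le_rfl

end Pool.Agent.H527.S
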