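import Mathlib
import Pool.Graph.R_seed8.Helper923.HMertens
import Pool.Agent.H527.S.S1

/-! The windows of primes: estimates for one window. -/

set_option autoImplicit false

namespace Pool.Agent.H527.S

open Finset
open Pool.Agent.X30.MF (E F)

/-- the sign of the error in the sifted count -/
theorem dev_sign (P : Finset ℕ) (hP : ∀ p ∈ P, p.Prime) (Y k : ℕ)
    (hk : ∀ s, s ⊆ P → s.card = k + 1 → Y < ∏ p ∈ s, p) (T : ℕ) (hT : T ≤ Y) :
    (T : ℝ) * F (fun p => 1 / (p : ℝ)) P k - (Sk P k).card ≤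
      (-1) ^ k * ((((Icc 1 T).filter (fun h => ∀ p ∈ P, ¬ p ∣ h)).card : ℝ) - T * ∏ p ∈ P, (1 - 1 / (p : ℝ))) := by
  have h1 := count_all P hP Y k hk T hT
  set N : ℝ := (((Icc 1 T).filter (fun h => ∀ p ∈ P, ¬ p ∣ h)).card : ℝ) with hN
  have h2 : (-1 : ℝ) ^ k * (N - T * ∏ p ∈ P, (1 - 1 / (p : ℝ))) =
      (-1) ^ k * (N - T * E (fun p => 1 / (p : ℝ)) P k) + T * F (fun p => 1 / (p : ℝ)) P k := by
    unfold F
    ring
  rw [h2]
  have h3 : |(-1 : ℝ) ^ k * (N - T * E (fun p => 1 / (p : ℝ)) P k)| ≤ (Sk P k).card := by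
    rw [abs_mul, abs_pow, abs_neg, abs_one, one_pow, one_mul]
    exact h1
  have h4 := (abs_le.1 h3).1
  linarith

/-- lower bound for `F` for sets with a small but not too small sum of reciprocals -/
theorem F_ge (P : Finset ℕ) (k : ℕ) (hσ : 1 / (4 * ((k : ℝ) + 1)) ≤ ∑ p ∈ P, 1 / (p : ℝ))
    (hm : ∀ p ∈ P, 1 / (p : ℝ) ≤ 1 / (8 * ((k : ℝ) + 1) ^ 2)) :
    1 / 2 * (1 / (8 * ((k : ℝ) + 1) ^ 2)) ^ (k + 1) ≤ F (fun p => 1 / (p : ℝ)) P k := by
  have hk0 : (0 : ℝ) < (k : ℝ) + 1 := by positivity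
  set lam : ℝ := 1 / (8 * ((k : ℝ) + 1) ^ 2) with hlam
  have hlam0 : 0 < lam := by positivity
  have hlam1 : lam ≤ 1 := by
    rw [hlam, div_le_one (by positivity)]
    have : (1 : ℝ) ≤ (k : ℝ) + 1 := by
      have : (0 : ℝ) ≤ k := Nat.cast_nonneg _
      linarith
    nlinarith
  have h1 := Pool.Agent.X30.MF.F_lower (fun p : ℕ => 1 / (p : ℝ)) lam lam hlam0.le hlam1 hlam0.le k P
    (fun p _ => by positivity) hm (by
      have : ((k : ℝ) + 1) * (lam + lam) = 1 / (4 * ((k : ℝ) + 1)) := by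
        rw [hlam]; field_simp; ring
      rw [this]; exact hσ)
  refine le_trans ?_ h1
  have h2 : lam / 2 ≤ 1 - Real.exp (-lam) := by
    have h3 : Real.exp (-lam) ≤ 1 - lam / 2 := by
      have h4 := Real.exp_pos lam
      have h5 : 1 + lam ≤ Real.exp lam := by
        have := Real.add_one_le_exp lam; linarith
      rw [Real.exp_neg, inv_eq_one_div, div_le_iff₀ h4]
      have h6 : (1 - lam / 2) * (1 + lam) ≤ (1 - lam / 2) * Real.exp lam :=
        mul_le_mul_of_nonneg_left h5 (by linarith)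
      nlinarith
    linarith
  calc 1 / 2 * lam ^ (k + 1) = lam ^ k * (lam / 2) := by rw [pow_succ]; ring
    _ ≤ _ := mul_le_mul_of_nonneg_left h2 (by positivity)

/-- `n ^ k / k! ≤ (e n / k) ^ k` -/
theorem pow_div_fact (n : ℝ) (hn : 0 ≤ n) (k : ℕ) (hk : 1 ≤ k) :
    n ^ k / k.factorial ≤ (3 * n / k) ^ k := by
  have hk0 : (0 : ℝ) < k := by exact_mod_cast hk
  have h1 := Real.pow_div_factorial_le_exp (k : ℝ) hk0.le k
  have h2 : Real.exp (k : ℝ) ≤ 3 ^ k := by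
    rw [← Real.exp_one_pow]
    have := Real.exp_one_lt_d9
    have := Real.exp_pos 1
    gcongr
    linarith
  have h3 : n ^ k / k.factorial = (n / k) ^ k * ((k : ℝ) ^ k / k.factorial) := by
    rw [div_pow]; field_simp
  rw [h3]
  calc (n / k) ^ k * ((k : ℝ) ^ k / k.factorial) ≤ (n / k) ^ k * 3 ^ k := by
        gcongr
        exact h1.trans h2
    _ = _ := by rw [← mul_pow]; congr 1; ring

/-- Chebyshev -/
theorem pi_le : ∃ x0 : ℝ, 4 ≤ x0 ∧ ∀ x : ℝ, x0 ≤ x → (Nat.primeCounting ⌊x⌋₊ : ℝ) ≤ 4 * x / Real.log x := by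
  have h1 := Chebyshev.eventually_primeCounting_le (ε := 1) one_pos
  obtain ⟨x1, hx1⟩ := Filter.eventually_atTop.1 h1
  refine ⟨max x1 4, le_max_right _ _, fun x hx => ?_⟩
  have h2 := hx1 x ((le_max_left _ _).trans hx)
  have hx4 : 4 ≤ x := (le_max_right _ _).trans hx
  refine h2.trans ?_
  have hl : 0 < Real.log x := Real.log_pos (by linarith)
  apply div_le_div_of_nonneg_right _ hl.le
  have h3 : Real.log 4 ≤ 2 := by
    rw [show (4 : ℝ) = 2 ^ 2 by norm_num, Real.log_pow]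
    have := Real.log_two_lt_d9
    push_cast; linarith
  nlinarith

end Pool.Agent.H527.S
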