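import Mathlib
import Pool.Agent.H527.S.S2

/-! The windows of primes, uniformly in the length of the sifted interval. -/

set_option autoImplicit false

namespace Pool.Agent.H527.S

open Finset Filter Topology
open Pool.Agent.X30.MF (E F)

/-- the eventual conditions -/
theorem cond (α0 κ0 κ ε1 x0 CM : ℝ) (hα0 : 0 < α0) (hκ0 : 0 < κ0) (hκ : 0 < κ) (hε1 : 0 < ε1) :
    ∀ᶠ L : ℝ in atTop, 10 ≤ Real.log L ∧ max x0 100 ≤ L ^ α0 ∧ 1 ≤ α0 / 100 * Real.log L ∧
      3 * (L ^ (α0 / 2))⁻¹ ≤ (α0 / (8 * κ0)) / Real.log L ∧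
      8 * (κ0 * Real.log L / α0) ^ 2 ≤ L ^ α0 ∧
      κ0 * Real.log L / α0 * (ε1 * Real.log L) ≤ 4 * L ^ α0 ∧
      8 * (κ0 * Real.log L / α0) ^ 3 ≤ κ / 2 * L ^ (α0 / 2) ∧
      CM ≤ α0 / 40 * Real.log L := by
  have hlog := Real.tendsto_log_atTop
  have key : ∀ (c : ℝ) (hc : 0 < c) (D : ℝ) (hD : 0 ≤ D) (n : ℕ), ∀ᶠ L : ℝ in atTop, D * (Real.log L) ^ n ≤ L ^ c := by
    intro c hc D hD n
    have h1 := (isLittleO_log_rpow_rpow_atTop (n : ℝ) hc).bound (show (0 : ℝ) < 1 / (D + 1) by positivity)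
    filter_upwards [h1, eventually_gt_atTop (1 : ℝ)] with L h2 h3
    have h4 : 0 < Real.log L := Real.log_pos h3
    rw [Real.rpow_natCast, Real.norm_of_nonneg (by positivity), Real.norm_of_nonneg (by positivity)] at h2
    have h5 : D * (Real.log L) ^ n ≤ D * (1 / (D + 1) * L ^ c) := by gcongr
    refine h5.trans ?_
    have h6 : 0 < L ^ c := Real.rpow_pos_of_pos (by linarith) _
    have h7 : D * (1 / (D + 1)) ≤ 1 := by
      rw [mul_one_div, div_le_one (by linarith)]; linarith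
    calc D * (1 / (D + 1) * L ^ c) = D * (1 / (D + 1)) * L ^ c := by ring
      _ ≤ 1 * L ^ c := by gcongr
      _ = _ := one_mul _
  filter_upwards [hlog.eventually_ge_atTop 10, (tendsto_rpow_atTop hα0).eventually_ge_atTop (max x0 100),
    hlog.eventually_ge_atTop (100 / α0), key (α0 / 2) (by linarith) (3 * (8 * κ0 / α0)) (by positivity) 1,
    key α0 hα0 (8 * (κ0 / α0) ^ 2) (by positivity) 2, key α0 hα0 (κ0 / α0 * ε1) (by positivity) 2,
    key (α0 / 2) (by linarith) (8 * (κ0 / α0) ^ 3 * (2 / κ)) (by positivity) 3,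
    hlog.eventually_ge_atTop (40 * CM / α0), eventually_gt_atTop (1 : ℝ)] with L h1 h2 h3 h4 h5 h6 h7 h8 h9
  have hL0 : 0 < L := by linarith
  have hp : 0 < L ^ (α0 / 2) := Real.rpow_pos_of_pos hL0 _
  have hp' : 0 < L ^ α0 := Real.rpow_pos_of_pos hL0 _
  have hlp : 0 < Real.log L := by linarith
  refine ⟨h1, h2, ?_, ?_, ?_, ?_, ?_, ?_⟩
  · rw [div_le_iff₀ hα0] at h3
    linarith
  · rw [pow_one] at h4
    rw [← div_eq_mul_inv, div_le_div_iff₀ hp hlp]
    have e : 3 * (8 * κ0 / α0) * Real.log L * (α0 / (8 * κ0)) = 3 * Real.log L := by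
      field_simp
    rw [← e]
    calc 3 * (8 * κ0 / α0) * Real.log L * (α0 / (8 * κ0)) ≤ L ^ (α0 / 2) * (α0 / (8 * κ0)) := by gcongr
      _ = _ := by ring
  · refine le_trans (le_of_eq ?_) h5
    field_simp
  · refine le_trans (le_of_eq ?_) (h6.trans (by linarith))
    field_simp
  · have e : 8 * (κ0 * Real.log L / α0) ^ 3 = κ / 2 * (8 * (κ0 / α0) ^ 3 * (2 / κ) * (Real.log L) ^ 3) := by
      field_simp
    rw [e]
    gcongr
  · rw [div_le_iff₀ hα0] at h8
    linarith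

/-- choice of the number of factors -/
theorem exists_k (u ε1 ε : ℝ) (hε : 0 < ε) (hε1 : 0 < ε1) (hu : ε ≤ u) (e : ℕ) (he : e < 2) :
    ∃ k : ℕ, 1 ≤ k ∧ k % 2 = e ∧ u ≤ k * ε1 ∧ (k : ℝ) + 1 ≤ u * (1 / ε1 + 3 / ε) := by
  have hu0 : 0 < u := by linarith
  obtain ⟨m, hm⟩ : ∃ m : ℕ, m = ⌈u / ε1⌉₊ := ⟨_, rfl⟩
  have hm1 : 1 ≤ m := by
    rw [hm]
    exact Nat.one_le_iff_ne_zero.2 (Nat.ceil_pos.2 (by positivity)).ne'
  have hm2 : u / ε1 ≤ m := by rw [hm]; exact Nat.le_ceil _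
  have hm3 : (m : ℝ) < u / ε1 + 1 := by rw [hm]; exact Nat.ceil_lt_add_one (by positivity)
  have h3 : 3 ≤ u * (3 / ε) := by
    rw [← mul_div_assoc, le_div_iff₀ hε]
    linarith
  have e1 : u * (1 / ε1 + 3 / ε) = u / ε1 + u * (3 / ε) := by ring
  rw [div_le_iff₀ hε1] at hm2
  by_cases h : m % 2 = e
  · refine ⟨m, hm1, h, hm2, ?_⟩
    rw [e1]; linarith
  · refine ⟨m + 1, by omega, by omega, ?_, ?_⟩
    · push_cast; nlinarith
    · rw [e1]; push_cast; linarith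

/-- the product over a set of primes with a small sum of reciprocals -/
theorem prod_ge (P : Finset ℕ) (hP : ∀ p ∈ P, (1 : ℝ) ≤ p) :
    1 - ∑ p ∈ P, 1 / (p : ℝ) ≤ ∏ p ∈ P, (1 - 1 / (p : ℝ)) := by
  classical
  have : ∀ Q : Finset ℕ, Q ⊆ P → 1 - ∑ p ∈ Q, 1 / (p : ℝ) ≤ ∏ p ∈ Q, (1 - 1 / (p : ℝ)) ∧
      ∏ p ∈ Q, (1 - 1 / (p : ℝ)) ≤ 1 ∧ 0 ≤ ∏ p ∈ Q, (1 - 1 / (p : ℝ)) := by
    intro Q
    induction Q using Finset.induction_on with
    | empty => intro _; simp
    | insert p Q hp ih =>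
      intro hQ
      obtain ⟨i1, i2, i3⟩ := ih ((subset_insert _ _).trans hQ)
      rw [sum_insert hp, prod_insert hp]
      have h2 := hP p (hQ (mem_insert_self _ _))
      have h3 : 1 / (p : ℝ) ≤ 1 := by
        rw [div_le_one (by linarith)]; linarith
      have h4 : 0 ≤ 1 / (p : ℝ) := by positivity
      refine ⟨by nlinarith, by nlinarith, ?_⟩
      exact mul_nonneg (by linarith) i3
  exact (this P (Subset.refl _)).1

/-- the explicit lower bound -/
theorem F_exp (α0 ε u C : ℝ) (k : ℕ) (hα00 : 0 < α0) (hε : 0 < ε) (hεu : ε ≤ u) (hk1' : (1 : ℝ) ≤ k)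
    (hkα : ((k : ℝ) + 1) * α0 ≤ u) (hC : C = 2 / ε + (1 / α0) * (2 * (3 + 2 * |Real.log α0|) + 2)) :
    Real.exp (-(C * (u * Real.log (u + 2)))) ≤ 1 / 2 * (1 / (8 * ((k : ℝ) + 1) ^ 2)) ^ (k + 1) := by
  have hu0 : 0 < u := by linarith
  have hk0 : (0 : ℝ) < (k : ℝ) + 1 := by positivity
  have h1 : 1 / 2 * (1 / (8 * ((k : ℝ) + 1) ^ 2)) ^ (k + 1) =
      Real.exp (-(Real.log 2 + ((k : ℝ) + 1) * (Real.log 8 + 2 * Real.log ((k : ℝ) + 1)))) := by
    have e1 : (8 * ((k : ℝ) + 1) ^ 2) ^ (k + 1) = Real.exp (((k : ℝ) + 1) * (Real.log 8 + 2 * Real.log ((k : ℝ) + 1))) := by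
      have e2 : Real.log 8 + 2 * Real.log ((k : ℝ) + 1) = Real.log (8 * ((k : ℝ) + 1) ^ 2) := by
        rw [Real.log_mul (by norm_num) (by positivity), Real.log_pow]; push_cast; ring
      rw [e2]
      have e3 : ((k : ℝ) + 1) * Real.log (8 * ((k : ℝ) + 1) ^ 2) =
          ((k + 1 : ℕ) : ℝ) * Real.log (8 * ((k : ℝ) + 1) ^ 2) := by push_cast; ring
      rw [e3, Real.exp_nat_mul, Real.exp_log (by positivity)]
    rw [neg_add, Real.exp_add, Real.exp_neg, Real.exp_log (by norm_num), Real.exp_neg, ← e1,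
      one_div_pow]
    ring
  rw [h1, hC]
  apply Real.exp_le_exp.2
  apply neg_le_neg
  have hlu : 1 / 2 ≤ Real.log (u + 2) := by
    have h2 : Real.log 2 ≤ Real.log (u + 2) := Real.log_le_log (by norm_num) (by linarith)
    have := Real.log_two_gt_d9
    linarith
  have h2 : Real.log 2 ≤ 2 / ε * (u * Real.log (u + 2)) := by
    have h3 : Real.log 2 ≤ 1 := by have := Real.log_two_lt_d9; linarith
    have h4 : 1 ≤ u / ε := by rw [le_div_iff₀ hε]; linarith
    calc Real.log 2 ≤ 1 := h3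
      _ ≤ u / ε * (2 * Real.log (u + 2)) := by nlinarith
      _ = _ := by ring
  have h3 : Real.log ((k : ℝ) + 1) ≤ Real.log (u + 2) + |Real.log α0| := by
    have h4 : (k : ℝ) + 1 ≤ u / α0 := by
      rw [le_div_iff₀ hα00]; exact hkα
    have h5 := Real.log_le_log hk0 h4
    rw [Real.log_div hu0.ne' hα00.ne'] at h5
    have h6 : Real.log u ≤ Real.log (u + 2) := Real.log_le_log hu0 (by linarith)
    have h7 := neg_abs_le (Real.log α0)
    linarith
  have h4 : Real.log 8 ≤ 3 := by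
    rw [show (8 : ℝ) = 2 ^ 3 by norm_num, Real.log_pow]
    have := Real.log_two_lt_d9
    push_cast; linarith
  have h5 : Real.log 8 + 2 * Real.log ((k : ℝ) + 1) ≤
      (2 * (3 + 2 * |Real.log α0|) + 2) * Real.log (u + 2) := by
    have h6 : 0 ≤ |Real.log α0| := abs_nonneg _
    nlinarith
  have h6 : (k : ℝ) + 1 ≤ 1 / α0 * u := by
    rw [one_div_mul_eq_div, le_div_iff₀ hα00]; exact hkα
  have h7 : 0 ≤ Real.log 8 + 2 * Real.log ((k : ℝ) + 1) := by
    have : 0 ≤ Real.log ((k : ℝ) + 1) := Real.log_nonneg (by linarith)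
    have : 0 ≤ Real.log 8 := Real.log_nonneg (by norm_num)
    linarith
  calc Real.log 2 + ((k : ℝ) + 1) * (Real.log 8 + 2 * Real.log ((k : ℝ) + 1)) ≤
      2 / ε * (u * Real.log (u + 2)) + (1 / α0 * u) * ((2 * (3 + 2 * |Real.log α0|) + 2) * Real.log (u + 2)) := by
        apply add_le_add h2
        exact mul_le_mul h6 h5 h7 (by positivity)
    _ = _ := by ring

/-- comparison of the number of the subsets with the main term -/
theorem subsets_small (α0 κ0 κ lL L u B D Fv n : ℝ) (k : ℕ) (hk1' : (1 : ℝ) ≤ k) (hα00 : 0 < α0) (hκ0 : 0 < κ0)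
    (hκ : 0 < κ) (hlL : 0 < lL) (hu0 : 0 < u) (hB0 : 0 < B) (hkα : ((k : ℝ) + 1) * α0 ≤ u)
    (huL : u ≤ κ0 * lL) (hκ02 : κ0 * 144 ≤ α0 ^ 2) (hkL : (k : ℝ) + 1 ≤ κ0 * lL / α0)
    (hLp : 0 < L) (c7 : 8 * (κ0 * lL / α0) ^ 3 ≤ κ / 2 * L) (hLD : L ≤ D)
    (hF : 1 / 2 * (1 / (8 * ((k : ℝ) + 1) ^ 2)) ^ (k + 1) ≤ Fv)
    (hn : n ≤ (k + 1) * (18 / (u * lL) * B) ^ k) : n ≤ κ * (B ^ k * D * Fv) := by
  have hk0 : (0 : ℝ) < (k : ℝ) + 1 := by positivity
  have hD0 : 0 < D := lt_of_lt_of_le hLp hLD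
  refine hn.trans ?_
  have h5 : κ * (B ^ k * D * (1 / 2 * (1 / (8 * ((k : ℝ) + 1) ^ 2)) ^ (k + 1))) ≤ κ * (B ^ k * D * Fv) := by
    gcongr
  refine le_trans ?_ h5
  have h6 : (k + 1) * (18 / (u * lL) * B) ^ k = B ^ k * ((k + 1) * (18 / (u * lL)) ^ k) := by rw [mul_pow]; ring
  have h7 : κ * (B ^ k * D * (1 / 2 * (1 / (8 * ((k : ℝ) + 1) ^ 2)) ^ (k + 1))) =
      B ^ k * ((κ / 2 * D) * (1 / (8 * ((k : ℝ) + 1) ^ 2)) ^ (k + 1)) := by ring
  rw [h6, h7]
  apply mul_le_mul_of_nonneg_left _ (by positivity)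
  have h8 : 18 / (u * lL) ≤ 1 / (8 * ((k : ℝ) + 1) ^ 2) := by
    rw [div_le_div_iff₀ (by positivity) (by positivity)]
    have h9 : (((k : ℝ) + 1) * α0) ^ 2 ≤ u ^ 2 := by gcongr
    have h10 : 144 * u ≤ α0 ^ 2 * lL := by
      calc 144 * u ≤ 144 * (κ0 * lL) := by gcongr
        _ = (κ0 * 144) * lL := by ring
        _ ≤ α0 ^ 2 * lL := by gcongr
    have h11 : 144 * ((k : ℝ) + 1) ^ 2 * α0 ^ 2 ≤ u * lL * α0 ^ 2 := by
      calc 144 * ((k : ℝ) + 1) ^ 2 * α0 ^ 2 = 144 * ((((k : ℝ) + 1) * α0) ^ 2) := by ring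
        _ ≤ 144 * u ^ 2 := by gcongr
        _ = (144 * u) * u := by ring
        _ ≤ (α0 ^ 2 * lL) * u := by gcongr
        _ = _ := by ring
    have h12 : 144 * ((k : ℝ) + 1) ^ 2 ≤ u * lL := le_of_mul_le_mul_right h11 (by positivity)
    linarith
  have h9 : (18 / (u * lL)) ^ k ≤ (1 / (8 * ((k : ℝ) + 1) ^ 2)) ^ k := by gcongr
  have h10 : ((k : ℝ) + 1) ≤ (κ / 2 * D) * (1 / (8 * ((k : ℝ) + 1) ^ 2)) := by
    rw [mul_one_div, le_div_iff₀ (by positivity)]
    calc ((k : ℝ) + 1) * (8 * ((k : ℝ) + 1) ^ 2) = 8 * ((k : ℝ) + 1) ^ 3 := by ring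
      _ ≤ 8 * (κ0 * lL / α0) ^ 3 := by gcongr
      _ ≤ κ / 2 * L := c7
      _ ≤ κ / 2 * D := by gcongr
  calc ((k : ℝ) + 1) * (18 / (u * lL)) ^ k ≤
      ((κ / 2 * D) * (1 / (8 * ((k : ℝ) + 1) ^ 2))) * (1 / (8 * ((k : ℝ) + 1) ^ 2)) ^ k := by gcongr
    _ = (κ / 2 * D) * (1 / (8 * ((k : ℝ) + 1) ^ 2)) ^ (k + 1) := by rw [pow_succ]; ring

theorem log_floor (x y : ℝ) (hx : 2 ≤ x) (hy : x - 1 < y) : Real.log x - 2 / x ≤ Real.log y := by
  have h1 : x * (1 - 1 / x) < y := by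
    have : x * (1 - 1 / x) = x - 1 := by field_simp
    rw [this]; exact hy
  have hx1 : 0 < 1 - 1 / x := by
    have : 1 / x < 1 := by rw [div_lt_one (by linarith)]; linarith
    linarith
  have h2 := Real.log_le_log (by positivity) h1.le
  rw [Real.log_mul (by linarith) hx1.ne'] at h2
  have h3 := Real.one_sub_inv_le_log_of_pos hx1
  have h4 : 1 - (1 - 1 / x)⁻¹ ≥ - (2 / x) := by
    have h5 : (1 - 1 / x)⁻¹ ≤ 1 + 2 / x := by
      rw [inv_eq_one_div, div_le_iff₀ hx1]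
      have h6 : (1 + 2 / x) * (1 - 1 / x) = 1 + 1 / x - 2 / x ^ 2 := by
        field_simp; ring
      rw [h6]
      have h7 : 2 / x ^ 2 ≤ 1 / x := by
        rw [div_le_div_iff₀ (by positivity) (by linarith)]
        nlinarith
      linarith
    linarith
  linarith

theorem tz_aux (t z : ℝ) (ht : 0 < t) (hz : 0 < z) (hzt : z ≤ t) :
    1 ≤ (1 - (t / (1 + t) - z)) * (1 + t - z) := by
  have h6 : (1 - (t / (1 + t) - z)) * (1 + t - z) = 1 + z * (t + t / (1 + t) - z) := by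
    field_simp; ring
  rw [h6]
  have h7 : 0 ≤ t + t / (1 + t) - z := by
    have : 0 < t / (1 + t) := by positivity
    linarith
  have := mul_nonneg hz.le h7
  linarith

theorem z_le (k v A : ℝ) (hk : 1 ≤ k) (hv : k + 1 ≤ v) (hA : 8 * v ^ 2 ≤ A) : 2 * (2 * k + 1) ≤ 1 * A := by
  nlinarith

theorem sq_aux (x y A : ℝ) (hx : 0 < x) (h : x ^ 2 = y) (hy : 100 ≤ y) (hA : y ≤ A) : 2 * x ≤ A := by
  have h1 : 2 ≤ x := by
    by_contra hcon
    push Not at hcon
    nlinarith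
  nlinarith

theorem mul_aux (s x : ℝ) (hs : s ≤ 1 / 3) (hx : 0 < x) : (1 + s) * x ≤ 4 / 3 * x := by
  nlinarith

set_option maxHeartbeats 4000000 in
theorem window (ε ε1 κ : ℝ) (hε : 0 < ε) (hε1 : 0 < ε1) (hκ : 0 < κ) :
    ∃ α0 κ0 C : ℝ, 0 < α0 ∧ 0 < κ0 ∧ 0 < C ∧ ∀ᶠ L : ℝ in atTop, ∀ u : ℝ, ε ≤ u → u ≤ κ0 * Real.log L →
      ∀ e : ℕ, e < 2 → ∃ k a b : ℕ, 1 ≤ k ∧ k % 2 = e ∧ a ≤ b ∧ (b : ℝ) ≤ L ^ ε1 ∧ L ^ α0 < (a : ℝ) + 1 ∧
        ∀ S : Finset ℕ, (S.card : ℝ) ≤ L ^ (α0 / 2) + 1 →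
          (∀ s, s ⊆ ((Ioc a b).filter Nat.Prime) \ S → s.card = k + 1 → L ^ u < ((∏ p ∈ s, p : ℕ) : ℝ)) ∧
          Real.exp (-(C * (u * Real.log (u + 2)))) ≤ F (fun p => 1 / (p : ℝ)) (((Ioc a b).filter Nat.Prime) \ S) k ∧
          ((Sk (((Ioc a b).filter Nat.Prime) \ S) k).card : ℝ) ≤
            κ * (L ^ u * F (fun p => 1 / (p : ℝ)) (((Ioc a b).filter Nat.Prime) \ S) k) ∧
          1 / 2 ≤ ∏ p ∈ ((Ioc a b).filter Nat.Prime) \ S, (1 - 1 / (p : ℝ)) := by
  classical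
  obtain ⟨CM, hCM0, hMert⟩ := Pool.Agent.Helper923.HMertens.mertens_ratio
  obtain ⟨x0, hx04, hpi⟩ := pi_le
  obtain ⟨α0, hα0⟩ : ∃ α0 : ℝ, α0 = 1 / (1 / ε1 + 3 / ε) := ⟨_, rfl⟩
  have hα00 : 0 < α0 := by rw [hα0]; positivity
  obtain ⟨κ0, hκ0⟩ : ∃ κ0 : ℝ, κ0 = min (α0 ^ 2 / (32 * (CM + 1))) (α0 ^ 2 / 144) := ⟨_, rfl⟩
  have hκ00 : 0 < κ0 := by rw [hκ0]; positivity
  have hκ01 : κ0 * (32 * (CM + 1)) ≤ α0 ^ 2 := by
    have h1 : κ0 ≤ α0 ^ 2 / (32 * (CM + 1)) := by rw [hκ0]; exact min_le_left _ _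
    rwa [le_div_iff₀ (by positivity)] at h1
  have hκ02 : κ0 * 144 ≤ α0 ^ 2 := by
    have h1 : κ0 ≤ α0 ^ 2 / 144 := by rw [hκ0]; exact min_le_right _ _
    rwa [le_div_iff₀ (by positivity)] at h1
  refine ⟨α0, κ0, 2 / ε + (1 / α0) * (2 * (3 + 2 * |Real.log α0|) + 2), hα00, hκ00, by positivity, ?_⟩
  filter_upwards [cond α0 κ0 κ ε1 x0 CM hα00 hκ00 hκ hε1, eventually_gt_atTop (1 : ℝ)] with L hL hL1
  obtain ⟨c1, c2, c3, c4, c5, c6, c7, c8⟩ := hL
  intro u hεu huL e he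
  have hL0 : 0 < L := by linarith
  have hlL : 0 < Real.log L := by linarith
  have hu0 : 0 < u := by linarith
  obtain ⟨k, hk1, hke, hku, hku'⟩ := exists_k u ε1 ε hε hε1 hεu e he
  have hk1' : (1 : ℝ) ≤ k := by exact_mod_cast hk1
  have hkα : ((k : ℝ) + 1) * α0 ≤ u := by
    rw [hα0, mul_one_div, div_le_iff₀ (by positivity)]
    exact hku'
  have hkL : (k : ℝ) + 1 ≤ κ0 * Real.log L / α0 := by
    rw [le_div_iff₀ hα00]
    linarith
  -- the two ends
  set A : ℝ := L ^ (u / (k + 1)) with hA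
  set B : ℝ := L ^ (2 * u / (2 * k + 1)) with hB
  have hk0 : (0 : ℝ) < (k : ℝ) + 1 := by positivity
  have hA0 : 0 < A := Real.rpow_pos_of_pos hL0 _
  have hB0 : 0 < B := Real.rpow_pos_of_pos hL0 _
  have hαA : L ^ α0 ≤ A := by
    apply Real.rpow_le_rpow_of_exponent_le hL1.le
    rw [le_div_iff₀ hk0]
    linarith
  have hBε : B ≤ L ^ ε1 := by
    apply Real.rpow_le_rpow_of_exponent_le hL1.le
    rw [div_le_iff₀ (by positivity)]
    have e1 : u * 2 ≤ (k * ε1) * 2 := by linarith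
    linarith
  have hAB : A ≤ B := by
    apply Real.rpow_le_rpow_of_exponent_le hL1.le
    rw [div_le_div_iff₀ hk0 (by positivity)]
    linarith
  have hA100 : 100 ≤ A := (le_max_right _ _).trans (c2.trans hαA)
  have hlA : Real.log A = u / (k + 1) * Real.log L := Real.log_rpow hL0 _
  have hlB : Real.log B = 2 * u / (2 * k + 1) * Real.log L := Real.log_rpow hL0 _
  have hlAα : α0 * Real.log L ≤ Real.log A := by
    rw [hlA]
    apply mul_le_mul_of_nonneg_right _ hlL.le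
    rw [le_div_iff₀ hk0]
    linarith
  have hlA1 : 100 ≤ Real.log A := by linarith
  have hlAB : Real.log A ≤ Real.log B := Real.log_le_log hA0 hAB
  have hlBA : Real.log B = (1 + 1 / (2 * k + 1)) * Real.log A := by
    rw [hlA, hlB]
    field_simp
    ring
  set a : ℕ := ⌊A⌋₊ with ha
  set b : ℕ := ⌊B⌋₊ with hb
  have hab : a ≤ b := Nat.floor_le_floor hAB
  have haA : (a : ℝ) ≤ A := Nat.floor_le hA0.le
  have hAa : A < (a : ℝ) + 1 := Nat.lt_floor_add_one _
  have hbB : (b : ℝ) ≤ B := Nat.floor_le hB0.le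
  have hBb : B < (b : ℝ) + 1 := Nat.lt_floor_add_one _
  have ha2 : 2 ≤ a := by
    have : (2 : ℝ) < (a : ℝ) + 1 := by linarith
    have : 2 < a + 1 := by exact_mod_cast this
    omega
  have ha0 : (0 : ℝ) < a := by exact_mod_cast (by omega : 0 < a)
  have hb0 : (0 : ℝ) < b := by exact_mod_cast (by omega : 0 < b)
  -- logarithms of the floors
  have hla : Real.log A - 2 / A ≤ Real.log a := log_floor A a (by linarith) (by linarith)
  have hlb : Real.log B - 2 / B ≤ Real.log b := log_floor B b (by linarith) (by linarith)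
  have hla' : Real.log a ≤ Real.log A := Real.log_le_log ha0 haA
  have hlb' : Real.log b ≤ Real.log B := Real.log_le_log hb0 hbB
  have h2A : 2 / A ≤ 1 / 50 := by
    rw [div_le_div_iff₀ hA0 (by norm_num)]; linarith
  have h2B : 2 / B ≤ 2 / A := div_le_div_of_nonneg_left (by norm_num) hA0 hAB
  have hla0 : 0 < Real.log a := by linarith
  have hla2 : α0 / 2 * Real.log L ≤ Real.log a := by linarith
  have hM := hMert a b ha2 hab
  set SG := ∑ p ∈ (Ioc a b).filter Nat.Prime, (1 : ℝ) / p with hSG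
  have hM' := abs_le.1 hM
  have hr0 : 0 < Real.log b / Real.log a := by
    apply div_pos _ hla0
    linarith
  -- lower bound for the sum over the window
  have hlow : 1 / (2 * ((k : ℝ) + 1)) - 2 / A ≤ Real.log (Real.log b / Real.log a) := by
    have h1 : 1 + 1 / (2 * (k : ℝ) + 1) - 2 / A ≤ Real.log b / Real.log a := by
      rw [le_div_iff₀ hla0]
      have h2 : (1 + 1 / (2 * (k : ℝ) + 1)) * Real.log A - 2 / A ≤ Real.log b := by
        rw [← hlBA]; linarith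
      have h3 : 0 ≤ 1 + 1 / (2 * (k : ℝ) + 1) - 2 / A := by
        have : 0 ≤ 1 / (2 * (k : ℝ) + 1) := by positivity
        linarith
      calc (1 + 1 / (2 * (k : ℝ) + 1) - 2 / A) * Real.log a ≤
          (1 + 1 / (2 * (k : ℝ) + 1) - 2 / A) * Real.log A := by gcongr
        _ = (1 + 1 / (2 * (k : ℝ) + 1)) * Real.log A - 2 / A * Real.log A := by ring
        _ ≤ (1 + 1 / (2 * (k : ℝ) + 1)) * Real.log A - 2 / A * 1 := by
            have : 2 / A * 1 ≤ 2 / A * Real.log A := by gcongr; linarith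
            linarith
        _ ≤ _ := by linarith
    have h2 := Real.one_sub_inv_le_log_of_pos hr0
    refine le_trans ?_ h2
    have h3 : 0 < 1 + 1 / (2 * (k : ℝ) + 1) - 2 / A := by
      have : 0 ≤ 1 / (2 * (k : ℝ) + 1) := by positivity
      linarith
    have h4 : (Real.log b / Real.log a)⁻¹ ≤ (1 + 1 / (2 * (k : ℝ) + 1) - 2 / A)⁻¹ := inv_anti₀ h3 h1
    have h5 : (1 + 1 / (2 * (k : ℝ) + 1) - 2 / A)⁻¹ ≤ 1 - (1 / (2 * ((k : ℝ) + 1)) - 2 / A) := by
      rw [inv_eq_one_div, div_le_iff₀ h3]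
      set t : ℝ := 1 / (2 * (k : ℝ) + 1) with ht
      have ht0 : 0 < t := by positivity
      have ht1 : t ≤ 1 / 3 := by
        rw [ht, div_le_div_iff₀ (by positivity) (by norm_num)]; linarith
      have e1 : 1 / (2 * ((k : ℝ) + 1)) = t / (1 + t) := by
        rw [ht]; field_simp; ring
      rw [e1]
      set z : ℝ := 2 / A with hz
      have hz0 : 0 < z := by positivity
      have h8 : z ≤ t := by
        rw [hz, ht, div_le_div_iff₀ hA0 (by positivity)]
        exact z_le k (κ0 * Real.log L / α0) A hk1' hkL (c5.trans hαA)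
      exact tz_aux t z ht0 hz0 h8
    linarith
  have hSGlow : 1 / (2 * ((k : ℝ) + 1)) - 2 / A - CM / Real.log a ≤ SG := by linarith
  have hkinv : α0 / (κ0 * Real.log L) ≤ 1 / ((k : ℝ) + 1) := by
    rw [div_le_div_iff₀ (by positivity) hk0]
    rw [le_div_iff₀ hα00] at hkL
    linarith
  have hCMa : CM / Real.log a ≤ 1 / 16 * (1 / ((k : ℝ) + 1)) := by
    have h1 : CM / Real.log a ≤ CM / (α0 / 2 * Real.log L) :=
      div_le_div_of_nonneg_left hCM0 (by positivity) hla2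
    refine h1.trans ((le_trans ?_ (mul_le_mul_of_nonneg_left hkinv (by norm_num))))
    rw [← mul_div_assoc, div_le_div_iff₀ (by positivity) (by positivity)]
    have h2 : CM * κ0 * 32 ≤ α0 ^ 2 := by linarith
    have h3 : 0 < Real.log L := hlL
    calc CM * (κ0 * Real.log L) = (CM * κ0 * 32) * (Real.log L / 32) := by ring
      _ ≤ α0 ^ 2 * (Real.log L / 32) := by gcongr
      _ = _ := by ring
  have h3S : 3 * (L ^ (α0 / 2))⁻¹ ≤ 1 / 8 * (1 / ((k : ℝ) + 1)) := by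
    refine c4.trans ?_
    have h1 : α0 / (8 * κ0) / Real.log L = 1 / 8 * (α0 / (κ0 * Real.log L)) := by
      field_simp
    rw [h1]
    exact mul_le_mul_of_nonneg_left hkinv (by norm_num)
  have hLh : (L ^ (α0 / 2)) ^ 2 = L ^ α0 := by
    rw [← Real.rpow_natCast, ← Real.rpow_mul hL0.le]
    congr 1; push_cast; ring
  have hLh0 : 0 < L ^ (α0 / 2) := Real.rpow_pos_of_pos hL0 _
  have hLh1 : 1 ≤ L ^ (α0 / 2) := Real.one_le_rpow hL1.le (by positivity)
  -- upper bound for the sum over the window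
  have hup : SG ≤ 1 / 2 := by
    have h1 := Real.log_le_sub_one_of_pos hr0
    have h2 : Real.log b / Real.log a ≤ 7 / 5 := by
      rw [div_le_iff₀ hla0]
      have h3 : 1 / (2 * (k : ℝ) + 1) ≤ 1 / 3 := by
        rw [div_le_div_iff₀ (by positivity) (by norm_num)]; linarith
      have h4 : Real.log B ≤ 4 / 3 * Real.log A := by
        rw [hlBA]
        exact mul_aux _ _ h3 (by linarith)
      linarith
    have h3 : CM / Real.log a ≤ 1 / 10 := by
      rw [div_le_iff₀ hla0]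
      linarith
    linarith
  refine ⟨k, a, b, hk1, hke, hab, hbB.trans hBε, lt_of_le_of_lt hαA hAa, ?_⟩
  intro S hS
  set P := ((Ioc a b).filter Nat.Prime) \ S with hP
  have hPsub : P ⊆ (Ioc a b).filter Nat.Prime := sdiff_subset
  have hPp : ∀ p ∈ P, p.Prime ∧ A < p ∧ (p : ℝ) ≤ B := by
    intro p hp
    have h1 := hPsub hp
    rw [mem_filter, mem_Ioc] at h1
    refine ⟨h1.2, ?_, ?_⟩
    · have : (a : ℝ) + 1 ≤ p := by exact_mod_cast h1.1.1
      linarith
    · have : (p : ℝ) ≤ b := by exact_mod_cast h1.1.2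
      linarith
  have hσ : 1 / (4 * ((k : ℝ) + 1)) ≤ ∑ p ∈ P, 1 / (p : ℝ) := by
    have h1 : SG ≤ ∑ p ∈ P, 1 / (p : ℝ) + ∑ p ∈ S.filter (fun p => a < p), 1 / (p : ℝ) := by
      rw [hSG]
      have h2 : (Ioc a b).filter Nat.Prime ⊆ P ∪ S.filter (fun p => a < p) := by
        intro p hp
        rw [mem_union]
        by_cases h3 : p ∈ S
        · right
          rw [mem_filter]
          rw [mem_filter, mem_Ioc] at hp
          exact ⟨h3, hp.1.1⟩
        · left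
          exact mem_sdiff.2 ⟨hp, h3⟩
      refine (sum_le_sum_of_subset_of_nonneg h2 (fun p _ _ => by positivity)).trans ?_
      rw [← sum_union_inter]
      have : 0 ≤ ∑ p ∈ P ∩ S.filter (fun p => a < p), 1 / (p : ℝ) := sum_nonneg fun p _ => by positivity
      linarith
    have h2 : ∑ p ∈ S.filter (fun p => a < p), 1 / (p : ℝ) ≤ 2 * (L ^ (α0 / 2))⁻¹ := by
      have h3 : ∀ p ∈ S.filter (fun p => a < p), 1 / (p : ℝ) ≤ 1 / L ^ α0 := by
        intro p hp
        rw [mem_filter] at hp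
        have h4 : (a : ℝ) + 1 ≤ p := by exact_mod_cast hp.2
        apply one_div_le_one_div_of_le (Real.rpow_pos_of_pos hL0 _)
        linarith
      refine (sum_le_sum h3).trans ?_
      rw [sum_const, nsmul_eq_mul]
      have h4 : ((S.filter (fun p => a < p)).card : ℝ) ≤ 2 * L ^ (α0 / 2) := by
        have : ((S.filter (fun p => a < p)).card : ℝ) ≤ S.card := by exact_mod_cast card_filter_le _ _
        linarith
      calc ((S.filter (fun p => a < p)).card : ℝ) * (1 / L ^ α0) ≤ 2 * L ^ (α0 / 2) * (1 / L ^ α0) := by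
            gcongr
        _ = 2 * (L ^ (α0 / 2))⁻¹ := by
            rw [← hLh]; field_simp
    have h3 : 2 / A ≤ (L ^ (α0 / 2))⁻¹ := by
      have h4 : 2 * L ^ (α0 / 2) ≤ A := sq_aux _ _ A hLh0 hLh ((le_max_right _ _).trans c2) hαA
      rw [← one_div, div_le_div_iff₀ hA0 hLh0]
      linarith
    have h4 : 1 / (2 * ((k : ℝ) + 1)) = 1 / 2 * (1 / ((k : ℝ) + 1)) := by field_simp
    have h5 : 1 / (4 * ((k : ℝ) + 1)) = 1 / 4 * (1 / ((k : ℝ) + 1)) := by field_simp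
    rw [h5]
    rw [h4] at hSGlow
    have h6 : 0 < 1 / ((k : ℝ) + 1) := by positivity
    linarith
  have hm : ∀ p ∈ P, 1 / (p : ℝ) ≤ 1 / (8 * ((k : ℝ) + 1) ^ 2) := by
    intro p hp
    apply one_div_le_one_div_of_le (by positivity)
    have h1 : 8 * ((k : ℝ) + 1) ^ 2 ≤ 8 * (κ0 * Real.log L / α0) ^ 2 := by gcongr
    have h2 := (hPp p hp).2.1
    linarith
  have hF := F_ge P k hσ hm
  set FF := F (fun p => 1 / (p : ℝ)) P k with hFF
  refine ⟨?_, ?_, ?_, ?_⟩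
  · intro s hs hsc
    have h1 : A ^ (k + 1) < ((∏ p ∈ s, p : ℕ) : ℝ) := by
      push_cast
      rw [← hsc, ← prod_const]
      apply prod_lt_prod_of_nonempty
      · intro p _
        exact hA0
      · intro p hp
        exact (hPp p (hs hp)).2.1
      · rw [← card_pos, hsc]; omega
    have h2 : A ^ (k + 1) = L ^ u := by
      rw [hA, ← Real.rpow_natCast, ← Real.rpow_mul hL0.le]
      congr 1
      push_cast
      field_simp
    rwa [h2] at h1
  · exact (F_exp α0 ε u _ k hα00 hε hεu hk1' hkα rfl).trans hF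
  · -- the number of subsets
    have hlB0 : 0 < Real.log B := by linarith
    have hBx0 : x0 ≤ B := (le_max_left _ _).trans (c2.trans (hαA.trans hAB))
    have hcard : (P.card : ℝ) ≤ 4 * B / Real.log B := by
      refine le_trans ?_ (hpi B hBx0)
      have h1 : P.card ≤ Nat.primeCounting b := by
        rw [Nat.primeCounting, Nat.primeCounting', Nat.count_eq_card_filter_range]
        apply card_le_card
        intro p hp
        have h2 := hPsub hp
        rw [mem_filter, mem_Ioc] at h2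
        rw [mem_filter, mem_range]
        exact ⟨by omega, h2.2⟩
      exact_mod_cast h1
    have hlBε : Real.log B ≤ ε1 * Real.log L := by
      rw [hlB]
      apply mul_le_mul_of_nonneg_right _ hlL.le
      rw [div_le_iff₀ (by positivity)]
      have e1 : u * 2 ≤ (k * ε1) * 2 := by linarith
      linarith
    have hkn : (k : ℝ) ≤ 4 * B / Real.log B := by
      rw [le_div_iff₀ hlB0]
      have h1 : (k : ℝ) ≤ κ0 * Real.log L / α0 := by linarith
      calc (k : ℝ) * Real.log B ≤ κ0 * Real.log L / α0 * (ε1 * Real.log L) := by gcongr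
        _ ≤ 4 * L ^ α0 := c6
        _ ≤ 4 * B := by linarith
    have h1 := card_Sk P k (4 * B / Real.log B) hcard hkn
    have h2 := pow_div_fact (4 * B / Real.log B) (by positivity) k hk1
    have h3 : 3 * (4 * B / Real.log B) / k ≤ 18 / (u * Real.log L) * B := by
      rw [hlB]
      have h4 : 3 * (4 * B / (2 * u / (2 * k + 1) * Real.log L)) / k = (6 * (2 * k + 1) / k) * (B / (u * Real.log L)) := by
        field_simp
        ring
      rw [h4]
      have h5 : 6 * (2 * (k : ℝ) + 1) / k ≤ 18 := by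
        rw [div_le_iff₀ (by linarith)]; linarith
      calc (6 * (2 * (k : ℝ) + 1) / k) * (B / (u * Real.log L)) ≤ 18 * (B / (u * Real.log L)) := by gcongr
        _ = _ := by ring
    set D : ℝ := L ^ (u / (2 * k + 1)) with hD
    have hD0 : 0 < D := Real.rpow_pos_of_pos hL0 _
    have hBD : B ^ k * D = L ^ u := by
      rw [hB, hD, ← Real.rpow_natCast, ← Real.rpow_mul hL0.le, ← Real.rpow_add hL0]
      congr 1
      field_simp
    have hDα : L ^ (α0 / 2) ≤ D := by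
      apply Real.rpow_le_rpow_of_exponent_le hL1.le
      rw [div_le_div_iff₀ (by norm_num) (by positivity)]
      linarith
    have h4 : ((Sk P k).card : ℝ) ≤ (k + 1) * (18 / (u * Real.log L) * B) ^ k := by
      refine h1.trans (mul_le_mul_of_nonneg_left (h2.trans ?_) hk0.le)
      gcongr
    rw [← hBD]
    exact subsets_small α0 κ0 κ (Real.log L) (L ^ (α0 / 2)) u B D FF _ k hk1' hα00 hκ00 hκ hlL hu0 hB0 hkα huL
      hκ02 hkL hLh0 c7 hDα hF h4
  · -- the product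
    have h1 := prod_ge P (fun p hp => by linarith [(hPp p hp).2.1])
    have h2 : ∑ p ∈ P, 1 / (p : ℝ) ≤ SG :=
      sum_le_sum_of_subset_of_nonneg hPsub (fun p _ _ => by positivity)
    linarith

end Pool.Agent.H527.S
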